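import Pool.Agent.MP_1246c0_nt.H12.SpecR

/-! The moment estimate from its four ingredients. -/

namespace Pool.Agent.MP_1246c0_nt.H12

open Polynomial Finset Matrix

namespace MOM

theorem ind_nonneg (p : Prop) : 0 ≤ ind p := by
  unfold ind; split_ifs <;> norm_num

theorem ind_le_one (p : Prop) : ind p ≤ 1 := by
  unfold ind; split_ifs <;> norm_num

theorem ind_pos {p : Prop} (h : p) : ind p = 1 := by
  unfold ind; rw [if_pos h]

theorem ind_neg {p : Prop} (h : ¬p) : ind p = 0 := by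
  unfold ind; rw [if_neg h]

theorem ind_congr {p q : Prop} (h : p ↔ q) : ind p = ind q := by
  rw [propext h]

theorem ind_mono {p q : Prop} (h : p → q) : ind p ≤ ind q := by
  by_cases hp : p
  · rw [ind_pos hp, ind_pos (h hp)]
  · rw [ind_neg hp]; exact ind_nonneg q

theorem ind_and (p q : Prop) : ind (p ∧ q) = ind p * ind q := by
  by_cases hp : p <;> by_cases hq : q <;> simp [ind, hp, hq]

theorem card_eq_sum {κ : Type} [Fintype κ] (p : κ → Prop) :
    (Nat.card {x // p x} : ℝ) = ∑ x, ind (p x) := by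
  classical
  rw [Nat.card_eq_fintype_card, Fintype.card_subtype, Finset.card_filter]
  push_cast
  refine Finset.sum_congr rfl fun x _ => ?_
  unfold ind
  split_ifs <;> rfl

theorem ex_congr (hA : SAVG) {M : Type} [AddCommGroup M] [Finite M] (A : AddSubgroup M)
    (f g : M → ℝ) (h : ∀ x ∈ A, f x = g x) : Ex A f = Ex A g :=
  le_antisymm (hA.mono M A f g fun x hx => (h x hx).le) (hA.mono M A g f fun x hx => (h x hx).ge)

theorem ex_nonneg (hA : SAVG) {M : Type} [AddCommGroup M] [Finite M] (A : AddSubgroup M)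
    (f : M → ℝ) (h : ∀ x ∈ A, 0 ≤ f x) : 0 ≤ Ex A f := by
  have := hA.mono M A (fun _ => 0) f h
  rwa [hA.const] at this

section Gen

variable {Λ ι G : Type} [CommRing Λ] [Fintype ι] [DecidableEq ι] [AddCommGroup G] [Module Λ G]

/-- vectors with values in a proper submodule on a set of indices -/
theorem cnt_sub [Fintype G] (W : Submodule Λ G) (J : Finset ι)
    (hW : 2 * Nat.card W ≤ Fintype.card G) :
    ∑ g : ι → G, ind (∀ l ∈ J, g l ∈ W) ≤
      (Fintype.card G : ℝ) ^ Fintype.card ι / 2 ^ J.card := by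
  classical
  have h1 : ∀ g : ι → G, ind (∀ l ∈ J, g l ∈ W) =
      ∏ l, (if l ∈ J then ind (g l ∈ W) else 1) := by
    intro g
    by_cases h : ∀ l ∈ J, g l ∈ W
    · rw [ind_pos h]
      refine (Finset.prod_eq_one fun l _ => ?_).symm
      split_ifs with hl
      · exact ind_pos (h l hl)
      · rfl
    · rw [ind_neg h]
      push Not at h
      obtain ⟨l, hl, hg⟩ := h
      refine (Finset.prod_eq_zero (Finset.mem_univ l) ?_).symm
      rw [if_pos hl, ind_neg hg]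
  simp_rw [h1]
  have h2 := Finset.prod_univ_sum (fun _ : ι => (Finset.univ : Finset G))
    (fun l (x : G) => if l ∈ J then ind (x ∈ W) else (1 : ℝ))
  rw [Fintype.piFinset_univ] at h2
  rw [← h2]
  have h3 : ∀ l : ι, (∑ x : G, if l ∈ J then ind (x ∈ W) else (1 : ℝ)) ≤
      (Fintype.card G : ℝ) * (if l ∈ J then 1 / 2 else 1) := by
    intro l
    split_ifs with hl
    · rw [← card_eq_sum (fun x : G => x ∈ W)]
      have : (2 : ℝ) * (Nat.card W : ℝ) ≤ Fintype.card G := by exact_mod_cast hW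
      have e : (Nat.card {x : G // x ∈ W} : ℝ) = Nat.card W := rfl
      rw [e]; linarith
    · simp
  refine (Finset.prod_le_prod (fun l _ => ?_) fun l _ => h3 l).trans (le_of_eq ?_)
  · refine Finset.sum_nonneg fun x _ => ?_
    split_ifs
    · exact ind_nonneg _
    · norm_num
  · rw [Finset.prod_mul_distrib, Finset.prod_const, Finset.card_univ, Finset.prod_ite,
      Finset.prod_const, Finset.prod_const_one, mul_one, Finset.filter_mem_eq_inter,
      Finset.univ_inter, one_div, inv_pow, div_eq_mul_inv]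

/-- vectors that do not span on a set of indices -/
theorem cnt_ns (hQ : SQF) [Fintype G] (γ : ℕ) (hG : Nat.card G = 2 ^ γ) (J : Finset ι) :
    ∑ g : ι → G, ind (sp Λ g J ≠ ⊤) ≤
      2 ^ (γ * γ) * ((Fintype.card G : ℝ) ^ Fintype.card ι / 2 ^ J.card) := by
  classical
  obtain ⟨h1, h2, -⟩ := hQ.few Λ G ι γ hG
  have : Finite (Submodule Λ G) :=
    Finite.of_injective (fun W : Submodule Λ G => (W : Set G)) SetLike.coe_injective
  have : Fintype (Submodule Λ G) := Fintype.ofFinite _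
  have h3 : ∀ g : ι → G, ind (sp Λ g J ≠ ⊤) ≤
      ∑ W : Submodule Λ G, ind (W ≠ ⊤) * ind (∀ l ∈ J, g l ∈ W) := by
    intro g
    by_cases h : sp Λ g J ≠ ⊤
    · refine le_trans ?_ (Finset.single_le_sum (f := fun W : Submodule Λ G =>
        ind (W ≠ ⊤) * ind (∀ l ∈ J, g l ∈ W))
        (fun W _ => mul_nonneg (ind_nonneg _) (ind_nonneg _)) (Finset.mem_univ (sp Λ g J)))
      have h4 : ∀ l ∈ J, g l ∈ sp Λ g J := fun l hl =>
        Submodule.subset_span ⟨l, hl, rfl⟩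
      simp only [ind_pos h, ind_pos h4, mul_one, le_refl]
    · rw [ind_neg h]
      exact Finset.sum_nonneg fun W _ => mul_nonneg (ind_nonneg _) (ind_nonneg _)
  refine (Finset.sum_le_sum fun g _ => h3 g).trans ?_
  rw [Finset.sum_comm]
  have hp : (0 : ℝ) ≤ (Fintype.card G : ℝ) ^ Fintype.card ι / 2 ^ J.card := by positivity
  have h5 : ∀ W : Submodule Λ G, ∑ g : ι → G, ind (W ≠ ⊤) * ind (∀ l ∈ J, g l ∈ W) ≤
      (Fintype.card G : ℝ) ^ Fintype.card ι / 2 ^ J.card := by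
    intro W
    rw [← Finset.mul_sum]
    by_cases h : W ≠ ⊤
    · rw [ind_pos h, one_mul]
      refine cnt_sub W J ?_
      have := h2 W ⊤ (lt_top_iff_ne_top.2 h)
      rwa [Nat.card_congr (Submodule.topEquiv (R := Λ) (M := G)).toEquiv,
        Nat.card_eq_fintype_card (α := G)] at this
    · rw [ind_neg h, zero_mul]; exact hp
  refine (Finset.sum_le_sum fun W _ => h5 W).trans ?_
  rw [Finset.sum_const, Finset.card_univ, nsmul_eq_mul]
  refine mul_le_mul_of_nonneg_right ?_ hp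
  rw [Nat.card_eq_fintype_card] at h1
  exact_mod_cast h1

omit [DecidableEq ι] in
theorem ap_add (S H : Matrix ι ι Λ) (x : ι → G) (l : ι) :
    ap (S + H) x l = ap S x l + ap H x l := by
  unfold ap
  rw [← Finset.sum_add_distrib]
  exact Finset.sum_congr rfl fun l' _ => by rw [Matrix.add_apply, add_smul]

omit [DecidableEq ι] in
theorem ap_off {st : Λ →+* Λ} {B F : Finset ι} {H : Matrix ι ι Λ} (hH : H ∈ Hs st B F)
    (x : ι → G) {l : ι} (hl : l ∉ B) : ap H x l = 0 := by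
  unfold ap
  refine Finset.sum_eq_zero fun l' _ => ?_
  rw [hH.2.2 l l' fun h => hl h.1, zero_smul]

theorem sol_iff {st : Λ →+* Λ} {B F : Finset ι} {H : Matrix ι ι Λ} (hH : H ∈ Hs st B F)
    (S : Matrix ι ι Λ) (c : ι → Λ) (P : Finset ι) (o : Λ) (b : Bool) (u : Module.End Λ G)
    (g : ι → G) : Sol (S + H) c P o b u g ↔
      ((∀ l, l ∉ B → ap S (xv P b u g) l = rv P o b u g l) ∧ ∑ l, c l • xv P b u g l = 0) ∧
      ∀ l ∈ B, ap H (xv P b u g) l = rv P o b u g l - ap S (xv P b u g) l := by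
  unfold Sol
  constructor
  · rintro ⟨h1, h2⟩
    refine ⟨⟨fun l hl => ?_, h2⟩, fun l _ => ?_⟩
    · have := h1 l
      rwa [ap_add, ap_off hH _ hl, add_zero] at this
    · rw [← h1 l, ap_add, add_sub_cancel_left]
  · rintro ⟨⟨h1, h2⟩, h3⟩
    refine ⟨fun l => ?_, h2⟩
    by_cases hl : l ∈ B
    · rw [ap_add, h3 l hl, add_sub_cancel]
    · rw [ap_add, ap_off hH _ hl, add_zero, h1 l hl]

omit [Fintype ι] in
theorem sp_xv {P J J' : Finset ι} {b : Bool} (typ : ∀ l ∈ J, l ∈ P ↔ b = false) (hJ : J' ⊆ J)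
    (u : Module.End Λ G) (g : ι → G) : sp Λ (xv P b u g) J' = sp Λ g J' := by
  unfold sp
  congr 1
  refine Set.image_congr fun l hl => ?_
  unfold xv
  rw [if_neg]
  rintro ⟨h1, h2⟩
  have := (typ l (hJ hl)).1 h1
  rw [h2] at this
  exact Bool.noConfusion this

omit [Fintype ι] [DecidableEq ι] in
theorem gen_of_sp (u : Module.End Λ G) (g : ι → G) (J : Finset ι) (h : sp Λ g J = ⊤) :
    Gen u g := by
  intro W _ hW
  rw [eq_top_iff, ← h]
  exact Submodule.span_le.2 (by rintro _ ⟨l, _, rfl⟩; exact hW l)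

omit [Fintype ι] [DecidableEq ι] in
theorem sp_mono (x : ι → G) {J J' : Finset ι} (h : J ⊆ J') : sp Λ x J ≤ sp Λ x J' :=
  Submodule.span_mono (Set.image_mono h)

omit [Fintype ι] in
theorem split3 (J : Finset ι) (k : ℕ) (h : 3 * k ≤ J.card) :
    ∃ J1 J2 J3 : Finset ι, J1 ⊆ J ∧ J2 ⊆ J ∧ J3 ⊆ J ∧ Disjoint J1 J2 ∧ Disjoint J1 J3 ∧
      Disjoint J2 J3 ∧ J1.card = k ∧ J2.card = k ∧ J3.card = k := by
  obtain ⟨J1, h1, c1⟩ := Finset.exists_subset_card_eq (s := J) (n := k) (by omega)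
  have e1 : (J \ J1).card = J.card - k := by rw [Finset.card_sdiff_of_subset h1, c1]
  obtain ⟨J2, h2, c2⟩ := Finset.exists_subset_card_eq (s := J \ J1) (n := k) (by omega)
  have e2 : ((J \ J1) \ J2).card = J.card - k - k := by
    rw [Finset.card_sdiff_of_subset h2, c2, e1]
  obtain ⟨J3, h3, c3⟩ := Finset.exists_subset_card_eq (s := (J \ J1) \ J2) (n := k) (by omega)
  refine ⟨J1, J2, J3, h1, h2.trans Finset.sdiff_subset,
    h3.trans (Finset.sdiff_subset.trans Finset.sdiff_subset), ?_, ?_, ?_, c1, c2, c3⟩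
  · exact Finset.disjoint_left.2 fun l hl hl' => (Finset.mem_sdiff.1 (h2 hl')).2 hl
  · exact Finset.disjoint_left.2 fun l hl hl' =>
      (Finset.mem_sdiff.1 (Finset.mem_sdiff.1 (h3 hl')).1).2 hl
  · exact Finset.disjoint_left.2 fun l hl hl' => (Finset.mem_sdiff.1 (h3 hl')).2 hl

end Gen

/-- the four error terms fit into the final one -/
theorem num (γ z m : ℕ) (a e1 e2 e3 : ℝ) (ha0 : 0 ≤ a) (ha : a ≤ 2 ^ (γ * γ))
    (h1 : e1 ≤ 3 * (2 ^ (γ * γ) * (2 ^ (γ * z) / 2 ^ (m / 3))) * (a + 2 ^ (2 * γ * γ)))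
    (h2 : e2 ≤ 2 ^ (4 * γ * γ + 2 * γ * z + γ + 1) / 2 ^ m)
    (h3 : e3 ≤ 2 ^ (γ * γ + γ * (z + 1)) / 2 ^ (m / 2)) : e1 + e2 + e3 ≤ Er γ z m := by
  unfold Er
  obtain ⟨E, hE⟩ : ∃ E, E = 4 * γ * γ + 2 * γ * z + γ + 3 := ⟨_, rfl⟩
  have hD : (0 : ℝ) < 2 ^ (m / 3) := by positivity
  have k1 : e1 ≤ 2 ^ E / 2 ^ (m / 3) := by
    refine h1.trans ?_
    have q1 : (2 : ℝ) ^ (γ * γ) ≤ 2 ^ (2 * γ * γ) := pow_le_pow_right₀ (by norm_num) (by nlinarith)
    have q2 : (2 : ℝ) ^ (γ * γ + γ * z + 2 * γ * γ + 3) ≤ 2 ^ E :=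
      pow_le_pow_right₀ (by norm_num) (by rw [hE]; nlinarith [Nat.zero_le (γ * γ), Nat.zero_le (γ * z)])
    rw [le_div_iff₀ hD]
    refine le_trans ?_ q2
    have q3 : 3 * (2 ^ (γ * γ) * (2 ^ (γ * z) / 2 ^ (m / 3))) * (a + 2 ^ (2 * γ * γ)) *
        (2 : ℝ) ^ (m / 3) = 3 * (2 ^ (γ * γ) * 2 ^ (γ * z)) * (a + 2 ^ (2 * γ * γ)) := by
      field_simp
    rw [q3, pow_add, pow_add, pow_add]
    have q4 : (0 : ℝ) < 2 ^ (γ * γ) * 2 ^ (γ * z) := by positivity
    have q5 : (0 : ℝ) < 2 ^ (2 * γ * γ) := by positivity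
    nlinarith
  have k2 : e2 ≤ 2 ^ E / 2 ^ (m / 3) := by
    refine h2.trans (div_le_div₀ (by positivity) ?_ hD ?_)
    · exact pow_le_pow_right₀ (by norm_num) (by omega)
    · exact pow_le_pow_right₀ (by norm_num) (by omega)
  have k3 : e3 ≤ 2 ^ E / 2 ^ (m / 3) := by
    refine h3.trans (div_le_div₀ (by positivity) ?_ hD ?_)
    · exact pow_le_pow_right₀ (by norm_num)
        (by rw [hE]; nlinarith [Nat.zero_le (γ * γ), Nat.zero_le (γ * z)])
    · exact pow_le_pow_right₀ (by norm_num) (by omega)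
  have k4 : (2 : ℝ) ^ (E + 2) ≤ 2 ^ (5 * (γ + 1) * (γ + z + 2)) :=
    pow_le_pow_right₀ (by norm_num)
      (by rw [hE]; nlinarith [Nat.zero_le (γ * γ), Nat.zero_le (γ * z)])
  have k5 : (2 : ℝ) ^ (E + 2) / 2 ^ (m / 3) ≤ 2 ^ (5 * (γ + 1) * (γ + z + 2)) / 2 ^ (m / 3) :=
    div_le_div_of_nonneg_right k4 hD.le
  have k6 : (2 : ℝ) ^ (E + 2) / 2 ^ (m / 3) = 4 * (2 ^ E / 2 ^ (m / 3)) := by
    rw [pow_add]; ring
  have k7 : (0 : ℝ) ≤ 2 ^ E / 2 ^ (m / 3) := by positivity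
  linarith

end MOM

open MOM in
theorem rowMOM : OfMOM := by
  intro hA hQ hCR hROB hML hNS Λ ι G _ _ _ _ _ _ _ st au τ N S c B F P T J o b m z γ u hL hO hF hG
  classical
  have : Fintype G := Fintype.ofFinite G
  have hJ : 3 * (m / 3) ≤ J.card := by
    have h1 := hO.cnt 0
    have h2 := Finset.card_filter_le J fun l => au (c l) = 0
    omega
  obtain ⟨J1, J2, J3, s1, s2, s3, d12, d13, d23, c1, c2, c3⟩ := split3 J (m / 3) hJ
  obtain ⟨hAlt, hM⟩ := hML Λ ι G st au τ N S c B P J o b m z γ u hL hO hG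
  have hN := hNS Λ ι G st au τ N S c B F P T J o b m z γ u hL hO hF hG
  rw [hA.cnt] at hN
  rw [card_eq_sum] at hM
  have hS : Ex (Hs st B F) (fun H => (Sur (S + H) c P o b u : ℝ)) =
      ∑ g : ι → G, Ex (Hs st B F) fun H => ind (Sol (S + H) c P o b u g ∧ Gen u g) :=
    hA.cnt _ _ (Hs st B F) fun H g => Sol (S + H) c P o b u g ∧ Gen u g
  rw [hS]
  obtain ⟨a, ha⟩ : ∃ a : ℝ, a = Nat.card (Alt G st) := ⟨_, rfl⟩
  obtain ⟨D, hD⟩ : ∃ D : ℝ, D = (Nat.card G : ℝ) ^ B.card := ⟨_, rfl⟩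
  have ha0 : 0 ≤ a := by rw [ha]; positivity
  have hG0 : (0 : ℝ) < Nat.card G := by rw [hG]; positivity
  have hD0 : 0 < D := by rw [hD]; positivity
  rw [← ha, ← hD, Finset.sum_mul, Finset.sum_div] at hM
  -- the pointwise comparison
  have key : ∀ g : ι → G,
      |(Ex (Hs st B F) fun H => ind (Sol (S + H) c P o b u g ∧ Gen u g)) -
        ind ((∀ β ∈ Alt G st, ∑ l ∈ B,
          β (xv P b u g l) (rv P o b u g l - ap S (xv P b u g) l) = 0) ∧
          (∀ l, l ∉ B → ap S (xv P b u g) l = rv P o b u g l) ∧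
          ∑ l, c l • xv P b u g l = 0) * a / D| ≤
      (ind (sp Λ g J1 ≠ ⊤) + ind (sp Λ g J2 ≠ ⊤) + ind (sp Λ g J3 ≠ ⊤)) *
        ((a + 2 ^ (2 * γ * γ)) / D) +
      Ex (Hs st B F) fun H =>
        ind ((Sol (S + H) c P o b u g ∧ Gen u g) ∧ sp Λ (xv P b u g) F ≠ ⊤) := by
    intro g
    have p3 : 0 ≤ Ex (Hs st B F) fun H =>
        ind ((Sol (S + H) c P o b u g ∧ Gen u g) ∧ sp Λ (xv P b u g) F ≠ ⊤) :=
      ex_nonneg hA _ _ fun _ _ => ind_nonneg _
    have p0 : 0 ≤ Ex (Hs st B F) fun H => ind (Sol (S + H) c P o b u g ∧ Gen u g) :=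
      ex_nonneg hA _ _ fun _ _ => ind_nonneg _
    have w0 : (0 : ℝ) ≤ (a + 2 ^ (2 * γ * γ)) / D := by positivity
    have i1 := ind_nonneg (sp Λ g J1 ≠ ⊤)
    have i2 := ind_nonneg (sp Λ g J2 ≠ ⊤)
    have i3 := ind_nonneg (sp Λ g J3 ≠ ⊤)
    by_cases hR : sp Λ g J1 = ⊤ ∧ sp Λ g J2 = ⊤ ∧ sp Λ g J3 = ⊤
    · obtain ⟨r1, r2, r3⟩ := hR
      have hr := hROB Λ ι G st au τ N B F J1 J2 J3 (xv P b u g)
        (fun l => rv P o b u g l - ap S (xv P b u g) l) hL hF.fb (s1.trans hF.jf) (s2.trans hF.jf)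
        (s3.trans hF.jf) d12 d13 d23 (by rw [sp_xv hO.typ s1, r1]) (by rw [sp_xv hO.typ s2, r2])
        (by rw [sp_xv hO.typ s3, r3])
      have e1 : (Ex (Hs st B F) fun H => ind (Sol (S + H) c P o b u g ∧ Gen u g)) =
          Ex (Hs st B F) fun H =>
            ind ((∀ l, l ∉ B → ap S (xv P b u g) l = rv P o b u g l) ∧
              ∑ l, c l • xv P b u g l = 0) *
            ind (∀ l ∈ B, ap H (xv P b u g) l = rv P o b u g l - ap S (xv P b u g) l) := by
        refine ex_congr hA _ _ _ fun H hH => ?_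
        rw [← ind_and]
        exact ind_congr ((and_iff_left (gen_of_sp u g J1 r1)).trans (sol_iff hH S c P o b u g))
      rw [e1, hA.mul, hr, ← ha, ← hD, ind_and (∀ β ∈ Alt G st, _)]
      have : ∀ s t : ℝ, s * (t * a / D) - t * s * a / D = 0 := fun s t => by ring
      rw [this, abs_zero]
      positivity
    · have i4 : 1 ≤ ind (sp Λ g J1 ≠ ⊤) + ind (sp Λ g J2 ≠ ⊤) + ind (sp Λ g J3 ≠ ⊤) := by
        by_cases r1 : sp Λ g J1 = ⊤
        · by_cases r2 : sp Λ g J2 = ⊤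
          · have r3 : sp Λ g J3 ≠ ⊤ := fun r3 => hR ⟨r1, r2, r3⟩
            rw [ind_pos r3]; linarith
          · rw [ind_pos (p := sp Λ g J2 ≠ ⊤) r2]; linarith
        · rw [ind_pos (p := sp Λ g J1 ≠ ⊤) r1]; linarith
      have i5 := mul_le_mul_of_nonneg_right i4 w0
      rw [one_mul] at i5
      have q0 : ∀ p : Prop, 0 ≤ ind p * a / D ∧ ind p * a / D ≤ a / D := fun p =>
        ⟨by have := ind_nonneg p; positivity,
          div_le_div_of_nonneg_right (mul_le_of_le_one_left ha0 (ind_le_one p)) hD0.le⟩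
      obtain ⟨q1, q2⟩ := q0 ((∀ β ∈ Alt G st, ∑ l ∈ B,
          β (xv P b u g l) (rv P o b u g l - ap S (xv P b u g) l) = 0) ∧
          (∀ l, l ∉ B → ap S (xv P b u g) l = rv P o b u g l) ∧
          ∑ l, c l • xv P b u g l = 0)
      have w1 : (a + 2 ^ (2 * γ * γ)) / D = a / D + 2 ^ (2 * γ * γ) / D := add_div _ _ _
      have w2 : (0 : ℝ) ≤ 2 ^ (2 * γ * γ) / D := by positivity
      have w3 : (0 : ℝ) ≤ a / D := by positivity
      by_cases hT : sp Λ (xv P b u g) F = ⊤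
      · have hc := hCR Λ ι G st B F γ (xv P b u g)
          (fun l => rv P o b u g l - ap S (xv P b u g) l) hL.inv hF.fb hG
        have hT' : sp Λ (xv P b u g) B = ⊤ := top_le_iff.1 (hT ▸ sp_mono _ hF.fb)
        rw [hT, hT', Nat.card_congr (Submodule.topEquiv (R := Λ) (M := G)).toEquiv, ← pow_add,
          add_comm F.card, Finset.card_sdiff_add_card_eq_card hF.fb, ← hD] at hc
        have e1 : (Ex (Hs st B F) fun H => ind (Sol (S + H) c P o b u g ∧ Gen u g)) ≤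
            Ex (Hs st B F) fun H =>
              ind (∀ l ∈ B, ap H (xv P b u g) l = rv P o b u g l - ap S (xv P b u g) l) :=
          hA.mono _ _ _ _ fun H hH => ind_mono fun h => ((sol_iff hH S c P o b u g).1 h.1).2
        rw [abs_le]
        constructor <;> linarith
      · have e1 : (Ex (Hs st B F) fun H => ind (Sol (S + H) c P o b u g ∧ Gen u g)) =
            Ex (Hs st B F) fun H =>
              ind ((Sol (S + H) c P o b u g ∧ Gen u g) ∧ sp Λ (xv P b u g) F ≠ ⊤) :=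
          ex_congr hA _ _ _ fun H _ => ind_congr (and_iff_left hT).symm
        rw [abs_le]
        constructor <;> linarith
  -- summation
  have hsum := (Finset.abs_sum_le_sum_abs _ _).trans
    (Finset.sum_le_sum (s := Finset.univ) fun g _ => key g)
  rw [Finset.sum_sub_distrib, Finset.sum_add_distrib, ← Finset.sum_mul, Finset.sum_add_distrib,
    Finset.sum_add_distrib] at hsum
  have n1 := cnt_ns (Λ := Λ) hQ γ hG J1
  have n2 := cnt_ns (Λ := Λ) hQ γ hG J2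
  have n3 := cnt_ns (Λ := Λ) hQ γ hG J3
  rw [c1] at n1
  rw [c2] at n2
  rw [c3] at n3
  have hn : (Fintype.card G : ℝ) ^ Fintype.card ι ≤ 2 ^ (γ * z) * D := by
    rw [← Nat.card_eq_fintype_card, ← Finset.card_add_card_compl B, pow_add, ← hD, mul_comm]
    refine mul_le_mul_of_nonneg_right ?_ hD0.le
    rw [hG]
    push_cast
    rw [← pow_mul]
    exact pow_le_pow_right₀ (by norm_num) (Nat.mul_le_mul_left _ hO.sml)
  have hw : (0 : ℝ) ≤ (a + 2 ^ (2 * γ * γ)) / D := by positivity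
  have hb : (2 : ℝ) ^ (γ * γ) * ((Fintype.card G : ℝ) ^ Fintype.card ι / 2 ^ (m / 3)) ≤
      2 ^ (γ * γ) * (2 ^ (γ * z) * D / 2 ^ (m / 3)) :=
    mul_le_mul_of_nonneg_left (div_le_div_of_nonneg_right hn (by positivity)) (by positivity)
  have he : (∑ g : ι → G, ind (sp Λ g J1 ≠ ⊤) + ∑ g : ι → G, ind (sp Λ g J2 ≠ ⊤) +
      ∑ g : ι → G, ind (sp Λ g J3 ≠ ⊤)) * ((a + 2 ^ (2 * γ * γ)) / D) ≤
      3 * (2 ^ (γ * γ) * (2 ^ (γ * z) / 2 ^ (m / 3))) * (a + 2 ^ (2 * γ * γ)) := by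
    refine (mul_le_mul_of_nonneg_right
      (c := 3 * (2 ^ (γ * γ) * (2 ^ (γ * z) * D / 2 ^ (m / 3)))) (by linarith) hw).trans
      (le_of_eq ?_)
    field_simp
  have ha1 : a ≤ 2 ^ (γ * γ) := by rw [ha]; exact_mod_cast hAlt
  refine le_trans ?_ (num γ z m a _ _ _ ha0 ha1 he hN hM)
  refine (abs_sub_le _ _ _).trans (add_le_add (hsum.trans le_rfl) le_rfl)

end Pool.Agent.MP_1246c0_nt.H12
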