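import Pool.Agent.MP_1246c0_nt.H25.SpecU

/-! Divisibility in the group ring. -/

namespace Pool.Agent.MP_1246c0_nt.H25

open Polynomial Finset Pool.Agent.MP_1246c0_nt.H12

namespace DJ

/-- the quotient ring -/
abbrev Rj (j : ℕ) : Type := AdjoinRoot (((X : F2[X]) - 1) ^ j)

/-- its generator -/
noncomputable abbrev uj (j : ℕ) : Rj j := AdjoinRoot.root _

theorem monic (j : ℕ) : (((X : F2[X]) - 1) ^ j).Monic := (monic_X_sub_C (1 : F2)).pow j

theorem deg (j : ℕ) : (((X : F2[X]) - 1) ^ j).natDegree = j := by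
  rw [natDegree_pow, ← C_1, natDegree_X_sub_C, mul_one]

theorem cast_val {j : ℕ} (a : F2) (x : Rj j) : ((a.val : ℕ) : Rj j) * x = a • x := by
  rw [← map_natCast (algebraMap F2 (Rj j)), ZMod.natCast_zmod_val, Algebra.smul_def]

theorem two (j : ℕ) : (2 : Rj j) = 0 := by
  rw [← map_ofNat (algebraMap F2 (Rj j)) 2, show (2 : F2) = 0 from rfl, map_zero]

theorem nil (j : ℕ) : (uj j - 1) ^ j = 0 := by
  have h := AdjoinRoot.mk_self (f := ((X : F2[X]) - 1) ^ j)
  rwa [map_pow, map_sub, map_one, AdjoinRoot.mk_X] at h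

theorem pw {n j : ℕ} (h : j ≤ 2 ^ n) : uj j ^ 2 ^ n = 1 := by
  have e : ((X : F2[X]) - 1) ^ 2 ^ n = X ^ 2 ^ n - 1 := by rw [sub_pow_char_pow, one_pow]
  have h1 := congrArg (AdjoinRoot.mk (((X : F2[X]) - 1) ^ j)) e
  rw [AdjoinRoot.mk_eq_zero.2 (pow_dvd_pow _ h), map_sub, map_pow, map_one, AdjoinRoot.mk_X] at h1
  exact sub_eq_zero.1 h1.symm

theorem dj_iff (hL : SLAM) {n j : ℕ} (f : Co n) : Dj j f ↔ cv (uj j) f = 0 := by
  rw [Dj, ← AdjoinRoot.mk_eq_zero, hL.map, AdjoinRoot.mk_X]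

/-- the values of a functional on the powers of the generator -/
noncomputable def vl (n j : ℕ) : Module.Dual F2 (Rj j) →+ Co n where
  toFun lam := fun t => lam (uj j ^ t.val)
  map_zero' := rfl
  map_add' _ _ := rfl

theorem vl_inj {n j : ℕ} (h : j ≤ 2 ^ n) : Function.Injective (vl n j) := by
  intro a b e
  refine (AdjoinRoot.powerBasis' (monic j)).basis.ext fun i => ?_
  have hi : (i : ℕ) < 2 ^ n := (i.2.trans_eq (deg j)).trans_le h
  have k := congrFun e ((i : ℕ) : ZMod (2 ^ n))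
  change a (uj j ^ ((i : ℕ) : ZMod (2 ^ n)).val) = b (uj j ^ ((i : ℕ) : ZMod (2 ^ n)).val) at k
  rw [ZMod.val_cast_of_lt hi] at k
  rw [PowerBasis.basis_eq_pow]
  exact k

theorem card (j : ℕ) : Nat.card (Module.Dual F2 (Rj j)) = 2 ^ j := by
  have := (AdjoinRoot.powerBasis' (monic j)).finite
  rw [Module.natCard_eq_pow_finrank (K := F2), Subspace.dual_finrank_eq,
    (AdjoinRoot.powerBasis' (monic j)).finrank, Nat.card_zmod]
  exact congrArg _ (deg j)

theorem shift {n j : ℕ} (h : j ≤ 2 ^ n) (f : Co n) (hf : cv (uj j) f = 0) (i : ZMod (2 ^ n)) :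
    ∑ t, f (t + i) • uj j ^ t.val = 0 := by
  have hu : IsUnit (uj j ^ i.val) :=
    (IsUnit.of_pow_eq_one (pw h) (pow_ne_zero n two_ne_zero)).pow _
  refine hu.mul_left_eq_zero.1 ?_
  rw [← hf, cv, sum_mul]
  refine Fintype.sum_equiv (Equiv.addRight i) _ _ fun t => ?_
  rw [Equiv.coe_addRight, cast_val, smul_mul_assoc, ← pow_add, ZMod.val_add,
    ← pow_eq_pow_mod _ (pw h)]

end DJ

open DJ in
theorem rowDJ : OfDJ := by
  intro hL
  refine ⟨fun n j h => ⟨(vl n j).range, ?_, ?_⟩, fun n j Λ _ st au g f hG h hd => ?_,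
    fun n j f h hd => ?_⟩
  · rw [← card j]
    exact (Nat.card_congr (AddMonoidHom.ofInjective (vl_inj h)).toEquiv).le
  · rintro f hf _ ⟨lam, rfl⟩ i
    have k := congrArg lam (shift h f ((dj_iff hL f).1 hf) i)
    rw [map_sum, map_zero] at k
    rw [← k]
    refine sum_congr rfl fun t _ => ?_
    rw [map_smul, smul_eq_mul, mul_comm]
    rfl
  · obtain ⟨φ, hφ⟩ := hG.lift (Rj j) (uj j) (two j) (pw h)
    have k := map_dvd φ hd
    rw [map_pow, map_sub, map_one, hL.map, hφ, nil, zero_dvd_iff] at k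
    exact (dj_iff hL f).2 k
  · have k := map_dvd (evalRingHom (1 : F2)) hd
    rw [map_pow, map_sub, map_one, hL.map, coe_evalRingHom, eval_X, sub_self,
      zero_pow (by omega), zero_dvd_iff, cv] at k
    simpa using k

end Pool.Agent.MP_1246c0_nt.H25
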