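import Pool.Agent.MP_1246c0_nt.H25.SpecR
import Pool.Agent.MP_1246c0_nt.H73.LV

/-! The probability of a large solution at one level. -/

namespace Pool.Agent.MP_1246c0_nt.H25

open Finset Pool.Agent.MP_1246c0_nt.H12 Pool.Agent.MP_1246c0_nt.H12.LV

namespace LVO

theorem geo (γ f : ℕ) : ∑ d ∈ Icc γ (γ + f), 1 / (2 : ℝ) ^ d ≤ 2 * (1 / 2 ^ γ) := by
  have k : ∑ d ∈ Icc γ (γ + f), 1 / (2 : ℝ) ^ d + 1 / 2 ^ (γ + f) = 2 * (1 / 2 ^ γ) := by
    induction f with
    | zero => rw [add_zero, Icc_self, sum_singleton, two_mul]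
    | succ f ih =>
      rw [← add_assoc, sum_Icc_succ_top (by omega), ← ih, pow_succ]
      ring
  have : 0 ≤ 1 / (2 : ℝ) ^ (γ + f) := by positivity
  linarith

theorem er_mono {γ γ' : ℕ} (h : γ ≤ γ') (z m : ℕ) : Er γ z m ≤ Er γ' z m := by
  unfold Er
  refine div_le_div_of_nonneg_right (pow_le_pow_right₀ one_le_two ?_) (by positivity)
  gcongr

theorem ind_ex {κ : Type} (s : Finset κ) (p : κ → Prop) :
    ind (∃ i ∈ s, p i) ≤ ∑ i ∈ s, ind (p i) := by
  by_cases h : ∃ i ∈ s, p i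
  · obtain ⟨i, hi, hp⟩ := h
    refine (ind_le_one _).trans ?_
    rw [← ind_pos hp]
    exact single_le_sum (f := fun i => ind (p i)) (fun i _ => ind_nonneg _) hi
  · rw [show ind (∃ i ∈ s, p i) = 0 from if_neg h]
    exact sum_nonneg fun i _ => ind_nonneg _

end LVO

open LVO in
theorem rowLVO : OfLVO := by
  intro hA hH hL hQ γ hγ
  obtain ⟨x0, hx0⟩ := big
  refine ⟨max x0 γ, fun ι _ _ S e B P O J b x η hx hok hok' hO hc hη => ?_⟩
  obtain ⟨b1, b2, b3⟩ := hx0 x (le_of_max_le_left hx)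
  have gx : γ ≤ x := le_of_max_le_right hx
  have e1 := er_le (a := 20 * x + 8) (γ := 6 * x + 1) (x := x) (by nlinarith)
  have e4 : (1 : ℝ) / 2 ^ x ≤ 1 / 2 ^ γ :=
    one_div_le_one_div_of_le (by positivity) (pow_le_pow_right₀ one_le_two gx)
  have h3 : Ex (Hs i2 B B) (fun H => ind (Bdo (S + H) e P O (5 * x + 2))) ≤ η + 1 / 2 ^ x := by
    rw [hA.sub _ _ _ _ (hs_le (P := P))]
    refine (hA.mono _ _ _ (fun H => ind (2 ^ x < Kr (S + H) e P) + 1 / 2 ^ x)
      fun H hH' => ?_).trans (by rw [hA.add, hA.const]; linarith)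
    rcases le_or_gt (Kr (S + H) e P) (2 ^ x) with k | k
    · simp only [← add_assoc]
      exact ((hH ι _ e B P O _ _ (5 * x) x (ok_add hok' hH') hO
        (by nlinarith) k).trans (b3 _ x hc le_rfl)).trans (le_add_of_nonneg_left (ind_nonneg _))
    · rw [ind_pos k]
      exact ((hA.mono _ _ _ _ fun _ _ => ind_le_one _).trans_eq (hA.const _ _ 1)).trans
        (le_add_of_nonneg_right (by positivity))
  have h2 : ∑ d ∈ Icc γ (γ + (5 * x + 1)), Ex (Hs i2 B B) (fun H =>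
      ind (∃ (u : Module.End F2 (Fin d → F2)) (g : ι → Fin d → F2),
        Slo (S + H) e P O b u g ∧ Gen u g)) ≤ 8 * (1 / 2 ^ γ) + 1 / 2 ^ x := by
    refine (sum_le_sum (g := fun d => 4 * (1 / (2 : ℝ) ^ d) + 4 * Er (6 * x + 1) x (x ^ 5))
      fun d hd => (hL ι S e B P O J b _ _ d hok hO).trans ?_).trans ?_
    · have := er_mono (γ := d) (γ' := 6 * x + 1) (by have := (mem_Icc.1 hd).2; omega) x (x ^ 5)
      linarith
    · rw [sum_add_distrib, ← mul_sum, sum_const, Nat.card_Icc, nsmul_eq_mul,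
        show γ + (5 * x + 1) + 1 - γ = 5 * x + 2 by omega]
      have := geo γ (5 * x + 1)
      push_cast at e1 ⊢
      linarith
  refine (hA.mono _ _ _ _ fun H _ => (ind_or (hQ ι (S + H) e P O b γ (5 * x + 1) hγ (by omega)
    hO.sub)).trans (add_le_add (ind_ex _ _) le_rfl)).trans ?_
  rw [hA.add, hA.sum, show (10 : ℝ) / 2 ^ γ = 10 * (1 / 2 ^ γ) by ring]
  linarith

end Pool.Agent.MP_1246c0_nt.H25
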