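import Pool.Agent.MP_1246c0_nt.H25.SpecA

/-! The rank of the module generated by a cocycle. -/

namespace Pool.Agent.MP_1246c0_nt.H25

open Finset Pool.Agent.MP_db5b97_nt.H85 Pool.Agent.MP_1246c0_nt.H12

namespace RNK

variable {M : Type} [AddCommGroup M]

theorem two_mem (y : M) : 2 • y ∈ Mu M 1 := mem_Mu.2 ⟨y, by simp⟩

theorem map_mem (S : Module.End ℤ M) {y : M} (h : y ∈ Mu M 1) : S y ∈ Mu M 1 := by
  obtain ⟨z, rfl⟩ := mem_Mu.1 h
  exact mem_Mu.2 ⟨S z, by rw [map_nsmul]⟩

/-- generators modulo doubles bound the index -/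
theorem idx {ι : Type} [Fintype ι] (x : ι → M)
    (h : Mu M 1 ⊔ AddSubgroup.closure (Set.range x) = ⊤) :
    (Mu M 1).index ≤ 2 ^ Fintype.card ι := by
  classical
  let f : (ι → Fin 2) → M ⧸ Mu M 1 := fun c => ((∑ i, ((c i : ℕ) : ℤ) • x i : M) : M ⧸ Mu M 1)
  have hf : Function.Surjective f := by
    intro q
    obtain ⟨y, rfl⟩ := QuotientAddGroup.mk_surjective q
    have hy : y ∈ Mu M 1 ⊔ AddSubgroup.closure (Set.range x) := h ▸ AddSubgroup.mem_top y
    obtain ⟨a, ha, b, hb, rfl⟩ := AddSubgroup.mem_sup.1 hy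
    obtain ⟨c, rfl⟩ := AddSubgroup.mem_closure_range_iff_of_fintype.1 hb
    refine ⟨fun i => ⟨(c i % 2).toNat, by omega⟩, ?_⟩
    refine QuotientAddGroup.eq.2 ?_
    have e : -(∑ i, (((c i % 2).toNat : ℕ) : ℤ) • x i) + (a + ∑ i, c i • x i) =
        a + 2 • ∑ i, (c i / 2) • x i := by
      rw [Finset.smul_sum, add_left_comm, neg_add_eq_sub, ← Finset.sum_sub_distrib]
      congr 1
      refine Finset.sum_congr rfl fun i _ => ?_
      rw [← sub_smul, two_smul, ← add_smul]
      congr 1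
      omega
    show -(∑ i, (((c i % 2).toNat : ℕ) : ℤ) • x i) + (a + ∑ i, c i • x i) ∈ Mu M 1
    rw [e]
    exact add_mem ha (two_mem _)
  have := Nat.card_le_card_of_surjective f hf
  rw [Nat.card_eq_fintype_card (α := ι → Fin 2), Fintype.card_fun, Fintype.card_fin] at this
  exact this

theorem pow_fix (S : Module.End ℤ M) (x : M) (h : S x - x ∈ Mu M 1) (a : ℕ) :
    (S ^ a) x - x ∈ Mu M 1 := by
  induction a with
  | zero => simp
  | succ a ih =>
    have e : (S ^ (a + 1)) x - x = S ((S ^ a) x - x) + (S x - x) := by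
      rw [pow_succ', Module.End.mul_apply, map_sub]; abel
    rw [e]
    exact add_mem (map_mem S ih) h

/-- an odd power may be removed -/
theorem odd_fix (S : Module.End ℤ M) (n o : ℕ) (hS : S ^ 2 ^ n = 1) (ho : Odd o) (x : M)
    (h : (S ^ o) x - x ∈ Mu M 1) : S x - x ∈ Mu M 1 := by
  have hc : Nat.Coprime o (2 ^ n) := (Nat.coprime_two_right.2 ho).pow_right n
  obtain ⟨a, -, ha⟩ := Nat.exists_mul_mod_eq_of_coprime 1 hc (pow_ne_zero n two_ne_zero)
  have h1 := pow_fix (S ^ o) x h a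
  rw [← pow_mul, pow_eq_pow_mod _ hS, ha, ← pow_eq_pow_mod _ hS, pow_one] at h1
  exact h1

theorem sgn_fix (e : ℕ) (y : M) : ((-1 : Module.End ℤ M) ^ e) y - y ∈ Mu M 1 := by
  refine pow_fix _ y ?_ e
  have e : (-1 : Module.End ℤ M) y - y = 2 • (-y) := by
    rw [two_smul, LinearMap.neg_apply, Module.End.one_apply, sub_eq_add_neg]
  rw [e]
  exact two_mem _

/-- the local obstruction gives a fixed vector modulo doubles -/
theorem eo_fix (d n : ℕ) (T : Module.End ℤ M) (hT : T ^ 2 ^ n = 1) (ψ : Ga → M) (g s : Ga)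
    (k : ℕ) (hk : kap n g = (k : ZMod (2 ^ n))) (h : Eo d n T ψ (g, s) ∈ (⊥ : AddSubgroup M)) :
    (T ^ k) (ψ s) - ψ s ∈ Mu M 1 := by
  rw [AddSubgroup.mem_bot] at h
  unfold Eo acn at h
  simp only [Module.End.mul_apply] at h
  rw [hk, ZMod.val_natCast, ← pow_eq_pow_mod _ hT] at h
  have h1 := sgn_fix (chi d g).val ((T ^ k) (ψ s))
  have e : (T ^ k) (ψ s) - ψ s = 2 • (-ψ g) -
      (((-1 : Module.End ℤ M) ^ (chi d g).val) ((T ^ k) (ψ s)) - (T ^ k) (ψ s)) := by
    have h2 : ((-1 : Module.End ℤ M) ^ (chi d g).val) ((T ^ k) (ψ s)) = ψ s - 2 • ψ g := by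
      rw [sub_eq_zero] at h
      rw [h]; abel
    rw [h2, smul_neg]; abel
  rw [e]
  exact sub_mem (two_mem _) h1

end RNK

open RNK in
theorem rowRNK : OfRNK := by
  intro cc M _ _ Φ d P n T ψ ax hsq hodd hP hP8 hT hc hgen
  have hd0 : d ≠ 0 := hsq.ne_zero
  let x : Option (Σ l : d.primeFactors, Fin (2 ^ lev l)) → M := fun o =>
    o.elim (ψ (Φ.sg 2)) fun p => (T ^ (p.2 : ℕ)) (ψ (Φ.sg p.1))
  let W : AddSubgroup M := Mu M 1 ⊔ AddSubgroup.closure (Set.range x)
  have hx : ∀ o, x o ∈ W := fun o =>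
    AddSubgroup.mem_sup_right (AddSubgroup.subset_closure ⟨o, rfl⟩)
  have hM : ∀ y ∈ Mu M 1, y ∈ W := fun y hy => AddSubgroup.mem_sup_left hy
  have had : Ad T n (⊥ : AddSubgroup M) := by
    refine ⟨fun y hy => ?_, fun y => ?_⟩
    · rw [AddSubgroup.mem_bot] at hy ⊢
      rw [hy, map_zero]
    · rw [hT, AddSubgroup.mem_bot, Module.End.one_apply, sub_self]
  have hTx : ∀ o, T (x o) ∈ W := by
    rintro (_ | ⟨⟨l, hl⟩, k⟩)
    · show T (ψ (Φ.sg 2)) ∈ W
      by_cases h4 : d % 4 = 3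
      · have h1 := eo_fix d n T hT ψ _ _ 1 (by rw [ax.v.kf1, Nat.cast_one]) (hc.two h4)
        rw [pow_one] at h1
        have h2 := add_mem (hM _ h1) (hx none)
        rwa [show x none = ψ (Φ.sg 2) from rfl, sub_add_cancel] at h2
      · have h1 : chi d (Φ.sg 2) = 0 := by
          rw [(ax.v.codd d hodd).1, eps, if_neg h4]
        have h2 := hc.unr 2 Nat.prime_two (Or.inl h1)
        rw [AddSubgroup.mem_bot] at h2
        rw [h2, map_zero]
        exact zero_mem _
    · show T ((T ^ (k : ℕ)) (ψ (Φ.sg l))) ∈ W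
      rw [← Module.End.mul_apply, ← pow_succ']
      by_cases hk : (k : ℕ) + 1 < 2 ^ lev l
      · exact hx (some ⟨⟨l, hl⟩, ⟨k + 1, hk⟩⟩)
      · have hk' : (k : ℕ) + 1 = 2 ^ lev l := by
          have := k.2
          simp only at this
          omega
        rw [hk']
        have hlp : l.Prime := Nat.prime_of_mem_primeFactors hl
        have hld : l ∣ d := Nat.dvd_of_mem_primeFactors hl
        have hl2 : l ≠ 2 := by
          rintro rfl
          exact (Nat.not_even_iff_odd.2 hodd) (even_iff_two_dvd.2 hld)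
        have hg : Gd 0 l := ⟨hlp, hl2, Nat.zero_le _⟩
        have hchi : chi d (Φ.sg l) = 1 := by
          rw [ax.v.csg l d hg (by exact_mod_cast hd0), padicValInt.of_nat,
            ← Nat.factorization_def d hlp, Nat.factorization_eq_one_of_squarefree hsq hlp hld,
            Nat.cast_one]
        obtain ⟨o, ho, hko⟩ := ax.v.kfr n l hg
        have h1 := eo_fix d n T hT ψ _ _ _ hko (cc.odd M Φ d P n l T ⊥ ψ ax had hc hg hchi)
        rw [pow_mul] at h1
        have hS : (T ^ 2 ^ lev l) ^ 2 ^ n = 1 := by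
          rw [← pow_mul, mul_comm, pow_mul, hT, one_pow]
        have h2 := odd_fix _ n o hS ho _ h1
        have h3 : ψ (Φ.sg l) ∈ W := by
          have := hx (some ⟨⟨l, hl⟩, ⟨0, by positivity⟩⟩)
          simpa [x] using this
        have h4 := add_mem (hM _ h2) h3
        rwa [sub_add_cancel] at h4
  have hTW : ∀ y ∈ W, T y ∈ W := by
    have : W ≤ W.comap T.toAddMonoidHom := by
      refine sup_le (fun y hy => hM _ (map_mem T hy)) ((AddSubgroup.closure_le _).2 ?_)
      rintro _ ⟨o, rfl⟩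
      exact hTx o
    exact fun y hy => this hy
  have hall : ∀ h, ψ h ∈ W := by
    refine cc.det M Φ d P n T ⊥ W ψ ax had bot_le hTW hP hP8 hc fun l hlp _ hchi => ?_
    by_cases hl2 : l = 2
    · subst hl2
      exact hx none
    · have hg : Gd 0 l := ⟨hlp, hl2, Nat.zero_le _⟩
      have hld : l ∣ d := by
        by_contra hn
        rw [ax.v.csg l d hg (by exact_mod_cast hd0), padicValInt.of_nat,
          padicValNat.eq_zero_of_not_dvd hn, Nat.cast_zero] at hchi
        exact zero_ne_one hchi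
      have hl : l ∈ d.primeFactors := Nat.mem_primeFactors.2 ⟨hlp, hld, hd0⟩
      have := hx (some ⟨⟨l, hl⟩, ⟨0, by positivity⟩⟩)
      simpa [x] using this
  have htop : W = ⊤ := by
    rw [eq_top_iff, ← hgen]
    refine (AddSubgroup.closure_le _).2 ?_
    rintro _ ⟨h, rfl⟩
    exact hall h
  have h := idx x htop
  have e : Fintype.card (Option (Σ l : d.primeFactors, Fin (2 ^ lev l))) = tt d + 1 := by
    rw [Fintype.card_option, Fintype.card_sigma]
    simp only [Fintype.card_fin]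
    rw [tt, Finset.sum_coe_sort d.primeFactors fun l => 2 ^ lev l]
  rwa [e] at h

end Pool.Agent.MP_1246c0_nt.H25
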