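import Pool.Agent.MP_1246c0_nt.H25.SpecC

/-! The table determines the first pairing. -/

namespace Pool.Agent.MP_1246c0_nt.H25

open Finset Matrix Pool.Agent.MP_db5b97_nt.H85 Pool.Agent.MP_1246c0_nt.H12

namespace TAB

theorem map_mem {M : Type} [AddCommGroup M] (S : Module.End ℤ M) {y : M} (h : y ∈ Mu M 1) :
    S y ∈ Mu M 1 := by
  obtain ⟨z, rfl⟩ := mem_Mu.1 h
  exact mem_Mu.2 ⟨S z, by rw [map_nsmul]⟩

theorem mem_of_cast {ℓ : ℕ} {a b : Fin ℓ → ℤ} (h : ∀ i, (a i : F2) = (b i : F2)) :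
    a - b ∈ Mu (Fin ℓ → ℤ) 1 := by
  choose c hc using fun i => (ZMod.intCast_eq_intCast_iff_dvd_sub (b i) (a i) 2).1 (h i).symm
  refine mem_Mu.2 ⟨c, funext fun i => ?_⟩
  rw [Pi.sub_apply, hc i]
  simp

theorem odd_iff {Φ : Frm} (ax : AxV Φ) {n l : ℕ} (hn : 1 ≤ n) (hl : Gd 0 l) :
    Odd (kap n (Φ.fr l)).val ↔ lev l = 0 := by
  obtain ⟨o, ho, e⟩ := ax.kfr n l hl
  rw [e, ZMod.val_natCast, Nat.odd_iff, Nat.mod_mod_of_dvd _ (dvd_pow_self 2 (by omega)),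
    ← Nat.odd_iff, Nat.odd_mul, and_iff_left ho]
  rcases Nat.eq_zero_or_pos (lev l) with h | h
  · simp [h]
  · refine iff_of_false ?_ h.ne'
    rw [Nat.not_odd_iff_even]
    exact even_two.pow_of_ne_zero h.ne'

theorem eps_iff {d d' : ℕ} (h : eps d = eps d') : d % 4 = 3 ↔ d' % 4 = 3 := by
  unfold eps at h
  by_cases a : d % 4 = 3 <;> by_cases b : d' % 4 = 3 <;> simp_all

variable {ι : Type} [Fintype ι] [DecidableEq ι] {ℓ : ℕ} {Φ : Frm} {μ : Md ℓ} {x x' : ι → ℕ}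
  {P : ℕ} {i1 : ι}

omit [DecidableEq ι] in
theorem w1_sub {w w' : Option ι ⊕ Bool → Vb ℓ} (h : W1 Φ μ x P i1 w)
    (e : ∀ σ, w' σ = w σ ∨ w' σ = 0) : W1 Φ μ x P i1 w' := by
  refine ⟨?_, fun a => ?_, fun o => ?_, fun a => ?_, fun a => ?_⟩
  · exact (e _).elim (fun k => k.trans h.one) id
  · exact (e _).elim (fun k => k.trans (h.two a)) id
  · rcases e (.inl o) with k | k <;> rw [k]
    exacts [h.fix o, zero_vecMul _]
  · rcases e (.inr true) with k | k <;> rw [k]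
    exacts [h.five a, zero_vecMul _]
  · rcases e (.inr true) with k | k <;> rw [k]
    exacts [h.four a, zero_mem _]

omit [DecidableEq ι] in
theorem w1_tr {w : Option ι ⊕ Bool → Vb ℓ} (h8 : dd x P % 8 = dd x' P % 8)
    (hk : ∀ o, kap μ.n (Φ.fr (po x o)) = kap μ.n (Φ.fr (po x' o))) (h : W1 Φ μ x P i1 w) :
    W1 Φ μ x' P i1 w :=
  ⟨h.one, fun a => h.two (by omega), fun o => hk o ▸ h.fix o, fun a => h.five (by omega),
    fun a => h.four (by omega)⟩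

theorem pw_single (w : Option ι ⊕ Bool → Vb ℓ) (ρ : Option ι ⊕ Bool) (φ : Ga → Fin ℓ → ℤ) :
    Pw Φ μ x P (Pi.single ρ (w ρ)) φ =
      lf (w ρ) ⬝ᵥ Eo (dd x P) μ.n (toLin' μ.g) φ (rws Φ x P ρ) := by
  unfold Pw
  rw [sum_eq_single ρ, Pi.single_eq_same]
  · intro σ _ hσ
    rw [Pi.single_eq_of_ne hσ, show lf (0 : Vb ℓ) = 0 from funext fun i => by simp [lf],
      zero_dotProduct]
  · exact fun h => absurd (mem_univ ρ) h

theorem eo_sub {M : Type} [AddCommGroup M] {d d' n : ℕ} {T : Module.End ℤ M} {ψ ψ' : Ga → M}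
    {p p' : Ga × Ga} (ha : acn d n T p.1 = acn d' n T p'.1) (h1 : ψ p.1 - ψ' p'.1 ∈ Mu M 1)
    (h2 : ψ p.2 - ψ' p'.2 ∈ Mu M 1) : ∃ y z : M,
      Eo d n T ψ p - Eo d' n T ψ' p' = 4 • z + 2 • Eo d n T (fun _ => y) p := by
  obtain ⟨z, hz⟩ := mem_Mu.1 h1
  obtain ⟨y, hy⟩ := mem_Mu.1 h2
  refine ⟨y, z - y, ?_⟩
  unfold Eo
  rw [← ha, sub_eq_iff_eq_add.1 hz.symm, sub_eq_iff_eq_add.1 hy.symm, map_add, map_nsmul]
  abel

/-- the pairings agree modulo four -/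
theorem pw_sub (pr : SPR) (ax : Ax1 Φ) (hx : Lb x P i1) {w : Option ι ⊕ Bool → Vb ℓ}
    (hw : W1 Φ μ x P i1 w) {ψ ψ' : Ga → Fin ℓ → ℤ}
    (h : ∀ ρ, acn (dd x P) μ.n (toLin' μ.g) (rws Φ x P ρ).1 =
        acn (dd x' P) μ.n (toLin' μ.g) (rws Φ x' P ρ).1 ∧
      ψ (rws Φ x P ρ).1 - ψ' (rws Φ x' P ρ).1 ∈ Mu _ 1 ∧
      ψ (rws Φ x P ρ).2 - ψ' (rws Φ x' P ρ).2 ∈ Mu _ 1) :
    (4 : ℤ) ∣ Pw Φ μ x P w ψ - Pw Φ μ x' P w ψ' := by
  unfold Pw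
  rw [← sum_sub_distrib]
  refine dvd_sum fun ρ _ => ?_
  obtain ⟨y, z, e⟩ := eo_sub (h ρ).1 (h ρ).2.1 (h ρ).2.2
  have h1 := (pr.one ι ℓ Φ μ x P i1 (Pi.single ρ (w ρ)) ax hx).2 (w1_sub hw fun σ => by
    by_cases k : σ = ρ
    · exact Or.inl (by rw [k, Pi.single_eq_same])
    · exact Or.inr (Pi.single_eq_of_ne k _)) fun _ => y
  rw [pw_single] at h1
  rw [← dotProduct_sub, e, dotProduct_add, dotProduct_smul, dotProduct_smul]
  obtain ⟨c, hc⟩ := h1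
  rw [hc]
  exact ⟨lf (w ρ) ⬝ᵥ z + c, by simp only [nsmul_eq_mul]; push_cast; ring⟩

end TAB

open TAB in
theorem rowTAB : OfTAB := by
  intro _ cc dc pr cn ι _ _ ℓ S μ x x' P J i1 ax hx hx' ok ht
  have v := ax.one.v
  have z := ax.one.z
  have hn : μ.a + 2 ≤ μ.n := by have := ok.le; have := ok.two; omega
  have t1 : ∀ l, own S μ.n P (x l) = own S μ.n P (x' l) := congrFun (congrArg Prod.fst ht)
  have t2 : ∀ l l', fl S μ.n (x l) (S.Φ.fr (x l')) = fl S μ.n (x' l) (S.Φ.fr (x' l')) :=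
    fun l l' => congrFun (congrFun (congrArg Prod.snd ht) l) l'
  simp only [own, Prod.mk.injEq, forall_and] at t1
  obtain ⟨tk, te, tc, tf, tP, tχ⟩ := t1
  obtain ⟨-, od, -, -, gP, lP, -, -, -, ed, md, cd, -⟩ := cc.lab ι S.Φ x P i1 ax.one hx
  obtain ⟨-, od', -, -, -, -, -, -, -, ed', md', cd', -⟩ := cc.lab ι S.Φ x' P i1 ax.one hx'
  have e4 : eps (dd x P) = eps (dd x' P) := by rw [ed, ed']; exact sum_congr rfl fun l _ => te l
  have h8 : dd x P % 8 = dd x' P % 8 := by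
    have a1 := eps_iff e4
    have a2 : (univ.filter fun i => lev (x i) = 0) = univ.filter fun i => lev (x' i) = 0 :=
      filter_congr fun l _ => by
        rw [← odd_iff v (n := μ.n) (by omega) (hx.odd l), tk l,
          odd_iff v (n := μ.n) (by omega) (hx'.odd l)]
    rw [a2, ← md'] at md
    have := Nat.odd_iff.1 od
    have := Nat.odd_iff.1 od'
    omega
  have hm : ∀ l, chi (-1) (S.Φ.fr (x l)) = chi (-1) (S.Φ.fr (x' l)) := fun l => by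
    rw [v.cm.2.2.2.2 _ (hx.odd l), v.cm.2.2.2.2 _ (hx'.odd l), te]
  have hχ : ∀ l, chi (dd x P) (S.Φ.fr (x l)) = chi (dd x' P) (S.Φ.fr (x' l)) := fun l => by
    rw [cd, cd', tχ]
    refine congrArg _ (sum_congr rfl fun i _ => ?_)
    rw [dc.ch S μ.n _ _ ax (hx.odd i), dc.ch S μ.n _ _ ax (hx'.odd i), t2, te, hm]
  have hk : ∀ o, kap μ.n (S.Φ.fr (po x o)) = kap μ.n (S.Φ.fr (po x' o)) := by
    rintro (_ | l)
    exacts [rfl, tk l]
  have hV : Vs S.Φ μ x P 1 = Vs S.Φ μ x' P 1 := by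
    ext u
    rw [(cn ι ℓ S μ x P J i1 ax hx ok).1, (cn ι ℓ S μ x' P J i1 ax hx' ok).1,
      show dd x P % 4 = dd x' P % 4 by omega]
    simp only [hk]
  have hW : Ws S.Φ μ x P i1 1 = Ws S.Φ μ x' P i1 1 := by
    ext w
    rw [(pr.one ι ℓ S.Φ μ x P i1 w ax.one hx).1, (pr.one ι ℓ S.Φ μ x' P i1 w ax.one hx').1]
    exact ⟨w1_tr h8 hk, w1_tr h8.symm fun o => (hk o).symm⟩
  obtain ⟨ad, gz, -⟩ := cc.adm _ _ _ _ _ ok.adm
  have ad1 := ad 1 μ.n (by omega)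
  have gz1 := fun y => gz μ.n y (by omega)
  have key : ∀ w ∈ Ws S.Φ μ x P i1 1, ∀ u ∈ Vs S.Φ μ x P 1,
      (pg S.Φ μ x P 1 w u = 0 ↔ pg S.Φ μ x' P 1 w u = 0) := by
    intro w hw u hu
    obtain ⟨ψ', c', r'⟩ := hV ▸ hu
    obtain ⟨ψ, c, r⟩ := hu
    have rs : ∀ o, ψ (S.Φ.sg (po x o)) - ψ' (S.Φ.sg (po x' o)) ∈ Mu _ 1 := fun o =>
      mem_of_cast fun i => congrFun (congrFun (r.trans r'.symm) o) i
    have d := (dc.dec ι _ S x P μ.n i1 _ _ ψ ax hx le_rfl ad1 gz1 c).2.2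
    have d' := (dc.dec ι _ S x' P μ.n i1 _ _ ψ' ax hx' le_rfl ad1 gz1 c').2.2
    have ag : ∀ h h', (∀ l, fl S μ.n (x l) h = fl S μ.n (x' l) h') → chi (-1) h = chi (-1) h' →
        kap μ.n h = kap μ.n h' → ψ h - ψ' h' -
          gs (toLin' μ.g) (kap μ.n h).val (ψ (S.Φ.fr 2) - ψ' (S.Φ.fr 2)) ∈ Mu _ 1 := by
      intro h h' a1 a2 a3
      have b1 := sub_mem (d h) (d' h')
      have b2 : ∑ l, cw (toLin' μ.g) (fl S μ.n (x l) h)
          (ψ (S.Φ.sg (x l)) - ψ' (S.Φ.sg (x' l))) ∈ Mu _ 1 :=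
        sum_mem fun l _ => map_mem _ (rs (some l))
      have b3 : (chi (-1) h).val • (ψ (S.Φ.sg 2) - ψ' (S.Φ.sg 2)) ∈ Mu _ 1 :=
        nsmul_mem (rs none) _
      simp only [← a1, ← a2, ← a3] at b1
      simp only [map_sub, sum_sub_distrib, smul_sub] at b2 b3 ⊢
      convert add_mem b1 (add_mem b2 b3) using 1
      abel
    have f2 : ψ (S.Φ.fr 2) - ψ' (S.Φ.fr 2) ∈ Mu _ 1 := by
      refine (dc.unit _ μ.n _ _ _ le_rfl ad1
        ((odd_iff v (n := μ.n) (by omega) gP).2 lP)).1 _ ?_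
      have b1 := sub_mem (sub_mem c.nrm c'.nrm) (ag _ _ tP rfl rfl)
      rwa [sub_sub_cancel] at b1
    have ag' : ∀ h h', (∀ l, fl S μ.n (x l) h = fl S μ.n (x' l) h') → chi (-1) h = chi (-1) h' →
        kap μ.n h = kap μ.n h' → ψ h - ψ' h' ∈ Mu _ 1 := fun h h' a1 a2 a3 => by
      have b1 := add_mem (ag h h' a1 a2 a3) (map_mem (gs (toLin' μ.g) (kap μ.n h).val) f2)
      rwa [sub_add_cancel] at b1
    let Q : Ga → Prop := fun h => acn (dd x P) μ.n (toLin' μ.g) h =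
      acn (dd x' P) μ.n (toLin' μ.g) h ∧ chi (dd x P) h = chi (dd x' P) h ∧ ψ h - ψ' h ∈ Mu _ 1
    have mk : ∀ h, chi (dd x P) h = chi (dd x' P) h → ψ h - ψ' h ∈ Mu _ 1 → Q h :=
      fun h a b => ⟨by unfold acn; rw [a], a, b⟩
    have q1 : ψ 1 - ψ' 1 ∈ Mu _ 1 :=
      sub_mem (cc.one _ _ _ _ _ _ _ ψ z c) (cc.one _ _ _ _ _ _ _ ψ' z c')
    have qr : Q (S.Φ.fr 2) := mk _ (by rw [(v.codd _ od).2.1, (v.codd _ od').2.1]) f2
    have qs : Q (S.Φ.sg 2) := mk _ (by rw [(v.codd _ od).1, (v.codd _ od').1, e4]) (rs none)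
    have qf : Q S.Φ.f2 := mk _ (by rw [(v.codd _ od).2.2, (v.codd _ od').2.2, h8])
      (ag' _ _ tf rfl rfl)
    have qc : Q S.Φ.cj := mk _ (by rw [v.ccj, v.ccj]) (ag' _ _ tc rfl rfl)
    have qm : Q (S.Φ.f2 * S.Φ.sg 2) := by
      refine mk _ (by rw [z.cmul, z.cmul, qf.2.1, qs.2.1]) ?_
      have b1 := sub_mem (c.coc S.Φ.f2 (S.Φ.sg 2)) (c'.coc S.Φ.f2 (S.Φ.sg 2))
      have b2 := map_mem (acn (dd x P) μ.n (toLin' μ.g) S.Φ.f2) qs.2.2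
      rw [← qf.1] at b1
      rw [map_sub] at b2
      convert add_mem b1 (add_mem b2 qf.2.2) using 1
      abel
    have h4 := pw_sub (x' := x') (ψ := ψ) (ψ' := ψ') pr ax.one hx
      ((pr.one ι ℓ S.Φ μ x P i1 w ax.one hx).1.1 hw) (by
        rintro ((_ | l) | (_ | _))
        · exact ⟨qr.1, qr.2.2, qs.2.2⟩
        · refine ⟨?_, ag' _ _ (fun i => t2 i l) (hm l) (tk l), rs (some l)⟩
          show acn _ _ _ (S.Φ.fr (x l)) = acn _ _ _ (S.Φ.fr (x' l))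
          unfold acn
          rw [hχ, tk]
        · exact ⟨qc.1, qc.2.2, q1⟩
        · simp only [rws, p4, ← h8]
          split_ifs
          exacts [⟨qr.1, qr.2.2, qf.2.2⟩, ⟨qm.1, qm.2.2, q1⟩, ⟨qf.1, qf.2.2, q1⟩])
    have J1 : 1 ≤ J := by have := ok.two; omega
    have a := pr.val ι ℓ S.Φ μ x P J 1 i1 w ψ ax.one hx ok le_rfl J1 hw c
    have a' := pr.val ι ℓ S.Φ μ x' P J 1 i1 w ψ' ax.one hx' ok le_rfl J1 (hW ▸ hw) c'
    rw [r] at a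
    rw [r'] at a'
    rw [a, a']
    exact dvd_iff_dvd_of_dvd_sub h4
  refine ⟨h8, hχ, ?_, ?_⟩
  · ext u
    simp only [Us, Set.mem_ofPred_eq, ← hV, ← hW]
    exact and_congr_right fun hu => forall₂_congr fun w hw => key w hw u hu
  · ext w
    rw [(pr.step ι ℓ S.Φ μ x P J 1 i1 ax.one hx ok le_rfl ok.two).1,
      (pr.step ι ℓ S.Φ μ x' P J 1 i1 ax.one hx' ok le_rfl ok.two).1, ← hV, ← hW]
    exact and_congr_right fun hw => forall₂_congr fun u hu => key w hw u hu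

end Pool.Agent.MP_1246c0_nt.H25
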